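import Mathlib

set_option autoImplicit false

universe u

open scoped commutatorElement

namespace Pool.Agent.Results.MP_4ce577_al.NoIntegral

/-- `K` lies in the variety generated by `G`: every law of `G` holds in `K`. -/
def InVar (K G : Type*) [Group K] [Group G] : Prop :=
  ∀ w : FreeGroup ℕ, (∀ f : ℕ → G, FreeGroup.lift f w = 1) → ∀ f : ℕ → K, FreeGroup.lift f w = 1

/-- A finite integrable group none of whose integrals generates the variety of integrals. -/
theorem result : ∃ (G : Type) (_ : Group G) (_ : Finite G),
    (∃ (H : Type) (_ : Group H), Nonempty (commutator H ≃* G)) ∧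
    ∃ (K : Type) (_ : Group K), InVar (commutator K) G ∧
      ∀ (H : Type u) [Group H], Nonempty (commutator H ≃* G) → ¬ InVar K H := by
  refine ⟨ℤˣ, inferInstance, inferInstance, ⟨DihedralGroup 4, inferInstance, ⟨?_⟩⟩,
    RegularWreathProduct ℤˣ (Multiplicative (ZMod 3)), inferInstance, fun w hw f => ?_,
    fun H _ ⟨e⟩ h => ?_⟩
  · have : commutator (DihedralGroup 4) = Subgroup.zpowers (DihedralGroup.r 2) := by
      apply le_antisymm
      · refine Subgroup.commutator_le.2 fun g _ h _ => ?_
        have : ∀ g h : DihedralGroup 4, ⁅g, h⁆ = 1 ∨ ⁅g, h⁆ = DihedralGroup.r 2 := by decide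
        rcases this g h with e | e <;> rw [e]
        exacts [one_mem _, Subgroup.mem_zpowers _]
      · rw [Subgroup.zpowers_le,
          show DihedralGroup.r 2 = ⁅(DihedralGroup.r 1 : DihedralGroup 4), DihedralGroup.sr 0⁆ by
            decide]
        exact Subgroup.commutator_mem_commutator trivial trivial
    have h2 : Fact (Nat.Prime 2) := ⟨Nat.prime_two⟩
    refine mulEquivOfPrimeCardEq (p := 2) ?_ (by simp)
    rw [this, Nat.card_zpowers]
    exact orderOf_eq_prime (by decide) (by decide)
  · have hr : ∀ k : commutator (RegularWreathProduct ℤˣ (Multiplicative (ZMod 3))), k.1.right = 1 :=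
      fun k => Abelianization.commutator_subset_ker RegularWreathProduct.rightHom k.2
    refine Subtype.ext (RegularWreathProduct.ext (funext fun q => ?_) (hr _))
    let φ : commutator (RegularWreathProduct ℤˣ (Multiplicative (ZMod 3))) →* ℤˣ :=
      MonoidHom.mk' (fun k => k.1.left q) fun a b => by simp [hr]
    have := hw (φ ∘ f)
    rw [← FreeGroup.lift_unique (φ.comp (FreeGroup.lift f)) (by simp)] at this
    exact this
  · have h1 : ∀ x y z : H, ⁅⁅x, y⁆, z⁆ = 1 := by
      intro x y z
      let c : commutator H := ⟨⁅x, y⁆, Subgroup.commutator_mem_commutator trivial trivial⟩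
      have h2 : MulAut.conjNormal z c = c := by
        apply e.injective
        have h3 : e (MulAut.conjNormal z c) = 1 ↔ e c = 1 := by simp
        rcases Int.units_eq_one_or (e c) with h4 | h4 <;>
          rcases Int.units_eq_one_or (e (MulAut.conjNormal z c)) with h5 | h5 <;> simp_all
      have h3 : z * ⁅x, y⁆ * z⁻¹ = ⁅x, y⁆ := congrArg Subtype.val h2
      rw [commutatorElement_eq_one_iff_mul_comm, eq_comm, ← mul_inv_eq_iff_eq_mul, h3]
    have := h ⁅⁅FreeGroup.of 0, FreeGroup.of 1⁆, FreeGroup.of 1⁆
      (fun f => by simp only [map_commutatorElement, h1])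
      fun i => if i = 0 then ⟨fun q => if q = 1 then -1 else 1, 1⟩ else ⟨1, Multiplicative.ofAdd 1⟩
    simp only [map_commutatorElement, FreeGroup.lift_apply_of] at this
    exact absurd (congrArg (fun k => k.left) this) (by decide)

end Pool.Agent.Results.MP_4ce577_al.NoIntegral
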